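import Pool.Agent.Helper15.UL.GoalsE

/-!
# MP_57a173_lc, part E, packet DCC: the calculus of decided truth values.
-/

noncomputable section

namespace UL.PkDCC

open Pool.Agent.Helper97.Ku NU MeasureTheory UL

variable {I : Type} [LinearOrder I] [WellFoundedLT I]

theorem sup (hBP : UL.G_BP) (hI : HF I) {ω : Pt I → Pt I} (hω : IsM ω) {κ : Type} [Countable κ]
    {a : κ → BA I} {S : κ → Set (Pt I)} (hS : ∀ k, MeasurableSet (S k))
    (hD : ∀ k, Dc ω (a k) (S k)) : Dc ω (⨆ k, a k) {z | ∃ k, z ∈ S k} := by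
  intro χ hχ
  constructor
  · intro hz
    obtain ⟨z0⟩ : Nonempty (Pt I) := inferInstance
    obtain ⟨k0, -⟩ := hz z0
    haveI : Nonempty κ := ⟨k0⟩
    obtain ⟨e, he⟩ := exists_surjective_nat κ
    refine Fc.iSup_iff.2 ⟨hω.comp hχ, fun g hg => ?_⟩
    obtain ⟨h, hh, n, hn⟩ := (hBP I hI).2 (fun n => S (e n)) (fun n => hS (e n)) (χ ∘ g)
      (hχ.comp hg) (fun z => by
        obtain ⟨k, hk⟩ := hz (g z)
        obtain ⟨n, rfl⟩ := he k
        exact ⟨n, hk⟩)
    exact ⟨h, hh, e n, (hD (e n) (χ ∘ g ∘ h) (hχ.comp (hg.comp hh))).1 (fun z => hn z)⟩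
  · intro hz
    rw [compl_iSup]
    exact Fc.iInf_iff.2 ⟨hω.comp hχ, fun k => (hD k χ hχ).2 fun z hk => hz z ⟨k, hk⟩⟩

theorem inf (hBP : UL.G_BP) (hI : HF I) {ω : Pt I → Pt I} (hω : IsM ω) {κ : Type} [Countable κ]
    {a : κ → BA I} {S : κ → Set (Pt I)} (hS : ∀ k, MeasurableSet (S k))
    (hD : ∀ k, Dc ω (a k) (S k)) : Dc ω (⨅ k, a k) {z | ∀ k, z ∈ S k} := by
  have h := (sup hBP hI hω (fun k => (hS k).compl) (fun k => (hD k).compl)).compl
  rw [compl_iSup] at h
  simp only [compl_compl] at h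
  refine h.congr fun z => ?_
  simp

theorem sup2 (hBP : UL.G_BP) (hI : HF I) {ω : Pt I → Pt I} (hω : IsM ω)
    {a b : BA I} {S T : Set (Pt I)} (hS : MeasurableSet S) (hT : MeasurableSet T)
    (ha : Dc ω a S) (hb : Dc ω b T) : Dc ω (a ⊔ b) {z | z ∈ S ∨ z ∈ T} := by
  have h := sup hBP hI hω (κ := Bool) (a := fun i => if i = true then a else b)
    (S := fun i => if i = true then S else T)
    (fun k => by cases k <;> simpa) (fun k => by cases k <;> simpa)
  rw [iSup_bool_eq] at h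
  simp only [if_true] at h
  refine Dc.congr (S := {z | ∃ k : Bool, z ∈ if k = true then S else T}) (by simpa using h)
    fun z => ?_
  simp
  tauto

theorem inf2 (hBP : UL.G_BP) (hI : HF I) {ω : Pt I → Pt I} (hω : IsM ω)
    {a b : BA I} {S T : Set (Pt I)} (hS : MeasurableSet S) (hT : MeasurableSet T)
    (ha : Dc ω a S) (hb : Dc ω b T) : Dc ω (a ⊓ b) {z | z ∈ S ∧ z ∈ T} := by
  have h := (sup2 hBP hI hω hS.compl hT.compl ha.compl hb.compl).compl
  rw [compl_sup, compl_compl, compl_compl] at h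
  refine h.congr fun z => ?_
  simp

theorem himp2 (hBP : UL.G_BP) (hI : HF I) {ω : Pt I → Pt I} (hω : IsM ω)
    {a b : BA I} {S T : Set (Pt I)} (hS : MeasurableSet S) (hT : MeasurableSet T)
    (ha : Dc ω a S) (hb : Dc ω b T) : Dc ω (a ⇨ b) {z | z ∈ S → z ∈ T} := by
  have h := sup2 hBP hI hω hT hS.compl hb ha.compl
  rw [← himp_eq] at h
  refine h.congr fun z => ?_
  simp
  tauto

theorem thm (hBP : UL.G_BP) : UL.G_DCC := by
  intro I _ _ hI ω hω
  refine ⟨fun κ _ a S hS hD => ⟨sup hBP hI hω hS hD, inf hBP hI hω hS hD⟩, ?_, ?_⟩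
  · intro κ a S hS hD c
    induction c with
    | atom j => exact hD j
    | neg c ih => exact ih.compl
    | or c ih => exact sup hBP hI hω (fun n => PF.measurableSet_tr hS (c n)) ih
  · intro a b S T hS hT ha hb
    refine ⟨inf2 hBP hI hω hS hT ha hb, sup2 hBP hI hω hS hT ha hb,
      himp2 hBP hI hω hS hT ha hb, ?_⟩
    have hST : MeasurableSet {z | z ∈ S → z ∈ T} := by
      have : {z | z ∈ S → z ∈ T} = Sᶜ ∪ T := by
        ext z; simp; tauto
      rw [this]; exact hS.compl.union hT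
    have hTS : MeasurableSet {z | z ∈ T → z ∈ S} := by
      have : {z | z ∈ T → z ∈ S} = Tᶜ ∪ S := by
        ext z; simp; tauto
      rw [this]; exact hT.compl.union hS
    have h := inf2 hBP hI hω hST hTS (himp2 hBP hI hω hS hT ha hb) (himp2 hBP hI hω hT hS hb ha)
    refine Dc.congr (S := {z | z ∈ {z | z ∈ S → z ∈ T} ∧ z ∈ {z | z ∈ T → z ∈ S}}) h fun z => ?_
    simp only [Set.mem_setOf_eq]
    tauto

end UL.PkDCC
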